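import Pool.Agent.Q35.VGMain

/-!
# The number `N n` of visibility graphs of simple polygons with `n` vertices is `2 ^ Θ(n log n)`

`Vis124.N n` is the number of isomorphism classes of visibility graphs of simple polygons with `n`
vertices, and `Vis124.NGP n` counts only those of polygons no three of whose vertices are
collinear.

Lower bound: for natural numbers `a, m ≥ 1` and every map `T` from `{0, …, m - 1}` to
`{0, …, a - 1}` there is a polygon with `a + 2 m` vertices: `a + m` vertices `(x, x ^ 2)` with
`x = 0, …, a + m - 1` on a parabola, and just to the left of each of the last `m` of them a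
blocker, close to the parabola, which hides from the `J`-th of these `m` vertices precisely the
vertices `(i, i ^ 2)` with `i > T J`. After three colours are given to the vertices, the map `T`
can be read off the visibility graph, so that `a ^ m ≤ NGP (a + 2 m) * 3 ^ (a + 2 m)`.

Upper bound: the visibility graph is determined by the orientation of the polygon and by the signs
of polynomials of degree two in the coordinates; a Warren type bound then gives
`N n ≤ 2 (16 n ^ 3 + 1) ^ (2 n)`.
-/

namespace Pool.Agent.Results.MP_af711c_co.GrowthRate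

open Vis124 Filter Asymptotics

/-- For `n ≥ 3 ^ 10`: `(n log n) / 8 ≤ log (NGP n) ≤ log (N n) ≤ 13 n log n`. Hence
`log₂ (N n) = Θ(n log n)` and `log₂ (NGP n) = Θ(n log n)`. -/
theorem result :
    (∀ n : ℕ, 3 ^ 10 ≤ n → (n : ℝ) * Real.log n / 8 ≤ Real.log (NGP n) ∧ NGP n ≤ N n ∧
      Real.log (N n) ≤ 13 * ((n : ℝ) * Real.log n)) ∧
    (fun n : ℕ => Real.logb 2 (N n)) =Θ[atTop] (fun n : ℕ => (n : ℝ) * Real.log n) ∧
    (fun n : ℕ => Real.logb 2 (NGP n)) =Θ[atTop] (fun n : ℕ => (n : ℝ) * Real.log n) :=
  Q35.VG.main

end Pool.Agent.Results.MP_af711c_co.GrowthRate
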